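import Pool.Agent.TH366.HC.Rep

/-!
# The Tate conjecture for the cyclic etale coverings of complements of hyperplane arrangements

Let `k` be a finitely generated field, `l_1, …, l_m` linear forms in `2 d + 1` variables over `k`,
in arbitrary position, `N ≥ 2` invertible in `k`, `a_1, …, a_m` prime to `N` with `N ∣ ∑ a_i`, `U` the
complement of the hyperplanes in the projective space of dimension `2 d` and
`Y : y ^ N = ∏ l_i ^ (a_i)` the etale covering of `U` with the group of `N`-th roots of unity; `Y` is
smooth and affine, not proper. We assume that the sum of the `a_i` over the hyperplanes through any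
dense edge of the arrangement is prime to `N` (hyperplanes in general position, or any `m = N = p`
hyperplanes without common point with `a_i = 1`, `p` prime); then for the nontrivial characters the
cohomology (with or without compact supports) is concentrated in the degree `2 d`. As `H^{2i}(U)` is
pure of weight `4 i`, all the statements `T^i(Y)` hold if the part `V` of `H^{2d}(Y) = H_c^{2d}(Y)` belonging
to the nontrivial characters contains no Tate classes of weight `2 d`.
-/

set_option autoImplicit false

namespace Pool.Agent.Results.MP_2a05c8_ag.HyperplaneCoverings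

open Finset Pool.Agent.TH366.HC

/-- **No Tate classes on cyclic coverings of complements of hyperplane arrangements.**

Let `G` be the Galois group of `k`, `V` the representation on the part of `H_c^{2d}` of `Y` that
belongs to the nontrivial characters, the sum of the parts `W χ` of the characters
`χ + 1 = 1, …, N - 1` of the covering group. Let `φ` be a geometric Frobenius element at a place of
good reduction with the residue field `κ` with `c ^ f` elements, which contains the primitive `N`-th
root of unity `z`; `l_i` also denotes the reductions. The Grothendieck-Lefschetz trace formula is the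
hypothesis `CoverTrace`. Suppose that for every `0 < χ < N` there is a `j` prime to `N` such that
the mean over `0 ≤ s < f` of `∑_i ⟨j χ a_i c ^ s / N⟩` is less than `d + 1` (`⟨ ⟩` is the fractional
part; if `c = 1` modulo `N` the condition is `∑_i ⟨j χ a_i / N⟩ ≤ d`).

Theorem: (1) `|L| - 1` times the trace of `φ ^ [L : κ]` on `V` is the number of points over `L` of the
affine cone `y ^ N = ∏ l_i(x) ^ (a_i)` minus that of the affine space, for all finite extensions `L`
of `κ`; (2) if `ε` is a character of `G` with `ε φ = |κ| ^ d` (the `-d`-th power of the cyclotomic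
character), then no nonzero vector of `V` is multiplied by `ε` under a subgroup of finite index:
over all finite extensions of `k` there are no Tate classes in `V`. -/
theorem result (N c d f : ℕ) (hN : 2 ≤ N) [Fact c.Prime]
    (κ : Type) [Field κ] [Fintype κ] [CharP κ c] (hf : Fintype.card κ = c ^ f) (z : κ)
    (hz : IsPrimitiveRoot z N) (E : Type) [Field E] [CharZero E] [IsAlgClosed E] (μ : E)
    (hμ : IsPrimitiveRoot μ N) (ι : Type) [Fintype ι] (l : ι → Fin (2 * d + 1) → κ) (a : ι → ℕ)
    (ha : ∀ i, (a i).Coprime N)
    (hj : ∀ χ, 0 < χ → χ < N → ∃ j, j.Coprime N ∧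
      ∑ i, ∑ s ∈ range f, (j * χ * a i * c ^ s) % N < f * N * (d + 1))
    (G : Type) [Group G] (V : Type) [AddCommGroup V] [Module E V] [FiniteDimensional E V]
    (ρ : Representation E G V) (W : Fin (N - 1) → Submodule E V) (hW : DirectSum.IsInternal W)
    (hstab : ∀ χ g, ∀ v ∈ W χ, ρ g v ∈ W χ) (φ : G)
    (hφ : ∀ χ : Fin (N - 1), CoverTrace κ N d l a z μ (χ + 1) ((ρ φ).restrict (hstab χ φ))) :
    (∀ (L : Type) [Field L] [Fintype L] [Algebra κ L],
      ((Fintype.card L : E) - 1) * LinearMap.trace E V ((ρ φ) ^ Module.finrank κ L)
        = (conePoints L N (2 * d + 1) (fun i k => algebraMap κ L (l i k)) a : E)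
          - (Fintype.card L : E) ^ (2 * d + 1)) ∧
    ∀ (ε : G →* E), ε φ = (Fintype.card κ : E) ^ d → ∀ (H : Subgroup G), H.FiniteIndex → ∀ v : V,
      (∀ g ∈ H, ρ g v = ε g • v) → v = 0 :=
  rep hN κ hf hz hμ l a ha hj ρ W hW hstab φ hφ

end Pool.Agent.Results.MP_2a05c8_ag.HyperplaneCoverings
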